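import Pool.Agent.H586.AF.C

/-!
# AF-Q33: the block 33 of the Hessian (helper947)

The matrix lemmas on `k4` follow the file AF-G1 of helper628.
-/

set_option autoImplicit false

open MeasureTheory Matrix Finset Filter Topology

namespace Pool.Agent.H947.AF

open Pool.Agent.H586.AF
open scoped Kronecker

noncomputable section

section k4
variable {R : Type} [CommRing R] {a b c d a' b' c' d' a'' b'' c'' d'' : Type}

theorem k4_eq (A : Matrix a a' R) (B : Matrix b b' R) (C : Matrix c c' R) (D : Matrix d d' R) :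
    k4 A B C D = A ⊗ₖ (B ⊗ₖ (C ⊗ₖ D)) := by
  ext x y
  simp only [k4, Matrix.kroneckerMap_apply]
  ring

theorem k4_mul [Fintype a'] [Fintype b'] [Fintype c'] [Fintype d']
    (A : Matrix a a' R) (B : Matrix b b' R) (C : Matrix c c' R) (D : Matrix d d' R)
    (A' : Matrix a' a'' R) (B' : Matrix b' b'' R) (C' : Matrix c' c'' R) (D' : Matrix d' d'' R) :
    k4 A B C D * k4 A' B' C' D' = k4 (A * A') (B * B') (C * C') (D * D') := by
  rw [k4_eq, k4_eq, k4_eq, Matrix.mul_kronecker_mul, Matrix.mul_kronecker_mul,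
    Matrix.mul_kronecker_mul]

theorem k4_smul2 (r : R) (A : Matrix a a' R) (B : Matrix b b' R) (C : Matrix c c' R)
    (D : Matrix d d' R) : k4 A (r • B) C D = r • k4 A B C D := by
  ext x y
  simp only [k4, Matrix.smul_apply, smul_eq_mul]
  ring

end k4

theorem k4_ct {a b c d a' b' c' d' : Type} (A : Matrix a a' ℂ) (B : Matrix b b' ℂ)
    (C : Matrix c c' ℂ) (D : Matrix d d' ℂ) : (k4 A B C D)ᴴ = k4 Aᴴ Bᴴ Cᴴ Dᴴ := by
  rw [k4_eq, k4_eq, Matrix.conjTranspose_kronecker, Matrix.conjTranspose_kronecker,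
    Matrix.conjTranspose_kronecker]

theorem cx_ct {m n : Type} (A : Matrix m n ℝ) : (cx A)ᴴ = cx Aᵀ := by
  ext i j
  simp [cx]

theorem cx_mul {m n p : Type} [Fintype n] (A : Matrix m n ℝ) (B : Matrix n p ℝ) :
    cx (A * B) = cx A * cx B := by
  ext i j
  simp [cx, Matrix.mul_apply]

theorem phs_ct {n : ℕ} (θ s x0 : ℝ) : (phs θ s x0 : Matrix (Fin n) (Fin n) ℂ)ᴴ = phs θ (-s) x0 := by
  unfold phs
  rw [Matrix.diagonal_conjTranspose]
  congr 1
  funext i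
  simp only [Pi.star_apply, Complex.star_def]
  rw [← Complex.exp_conj, map_mul, Complex.conj_I, Complex.conj_ofReal]
  congr 1
  push_cast
  ring

theorem phs_mul {n : ℕ} (θ s s' x0 : ℝ) :
    (phs θ s x0 : Matrix (Fin n) (Fin n) ℂ) * phs θ s' x0 = phs θ (s + s') x0 := by
  unfold phs
  rw [Matrix.diagonal_mul_diagonal]
  congr 1
  funext i
  rw [← Complex.exp_add]
  congr 1
  push_cast
  ring

theorem phs_zero {n : ℕ} (θ x0 : ℝ) : (phs θ 0 x0 : Matrix (Fin n) (Fin n) ℂ) = 1 := by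
  unfold phs
  rw [← Matrix.diagonal_one]
  congr 1
  funext i
  simp

theorem e0_ap {n m : ℕ} (j : Fin n) (i : Fin m) : e0 n m j i = if (i : ℕ) = j then 1 else 0 := rfl
theorem e1_ap {n m : ℕ} (j : Fin n) (i : Fin m) :
    e1 n m j i = if (i : ℕ) + 1 = j then 1 else 0 := rfl
theorem tm_ap {n : ℕ} (i j : Fin n) : tm n i j = if (j : ℕ) = i + 1 then 1 else 0 := rfl
theorem dm_ap {n m : ℕ} (j : Fin n) (i : Fin m) : dm n m j i =
    (if (i : ℕ) = j then 1 else 0) - (if (i : ℕ) + 1 = j then 1 else 0) := rfl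
theorem cx_ap {m n : Type} (A : Matrix m n ℝ) (i : m) (j : n) : cx A i j = (A i j : ℂ) := rfl

theorem e0T_mul {L : ℕ} {p : Type} (M : Matrix (Fin L) p ℂ) (i : Fin (L - 1)) (k : p) :
    ((e0 L (L - 1))ᵀ * M) i k = M ⟨i, by omega⟩ k := by
  rw [Matrix.mul_apply, Finset.sum_eq_single (⟨i, by omega⟩ : Fin L)]
  · simp [e0]
  · intro j _ hj
    have : ¬ ((i : ℕ) = j) := fun h => hj (Fin.ext h.symm)
    simp [e0, this]
  · intro h
    exact absurd (Finset.mem_univ _) h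

theorem e1T_mul {L : ℕ} {p : Type} (M : Matrix (Fin L) p ℂ) (i : Fin (L - 1)) (k : p) :
    ((e1 L (L - 1))ᵀ * M) i k = M ⟨i + 1, by omega⟩ k := by
  rw [Matrix.mul_apply, Finset.sum_eq_single (⟨i + 1, by omega⟩ : Fin L)]
  · simp [e1]
  · intro j _ hj
    have : ¬ ((i : ℕ) + 1 = j) := fun h => hj (Fin.ext h.symm)
    simp [e1, this]
  · intro h
    exact absurd (Finset.mem_univ _) h

theorem e00 (L : ℕ) : (e0 L (L - 1))ᵀ * e0 L (L - 1) = 1 := by
  ext i k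
  rw [e0T_mul, Matrix.one_apply, e0_ap]
  by_cases h : i = k
  · simp [h]
  · have : ¬ ((k : ℕ) = i) := fun h' => h (Fin.ext h'.symm)
    simp [h, this]

theorem e11 (L : ℕ) : (e1 L (L - 1))ᵀ * e1 L (L - 1) = 1 := by
  ext i k
  rw [e1T_mul, Matrix.one_apply, e1_ap]
  by_cases h : i = k
  · simp [h]
  · have : ¬ ((k : ℕ) = i) := fun h' => h (Fin.ext h'.symm)
    simp [h, this]

theorem e01 (L : ℕ) : (e0 L (L - 1))ᵀ * e1 L (L - 1) = cx (tm (L - 1))ᵀ := by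
  ext i k
  rw [e0T_mul, e1_ap, cx_ap, Matrix.transpose_apply, tm_ap]
  by_cases h : (k : ℕ) + 1 = i
  · rw [if_pos h, if_pos h.symm]
    simp
  · have : ¬ ((i : ℕ) = k + 1) := fun h' => h h'.symm
    rw [if_neg h, if_neg this]
    simp

theorem e10 (L : ℕ) : (e1 L (L - 1))ᵀ * e0 L (L - 1) = cx (tm (L - 1)) := by
  ext i k
  rw [e1T_mul, e0_ap, cx_ap, tm_ap]
  by_cases h : (k : ℕ) = i + 1
  · rw [if_pos h, if_pos h]
    simp
  · rw [if_neg h, if_neg h]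
    simp

theorem e0_ct (L : ℕ) : (e0 L (L - 1))ᴴ = (e0 L (L - 1))ᵀ := by
  ext i k
  rw [Matrix.conjTranspose_apply, Matrix.transpose_apply, e0_ap]
  split_ifs <;> simp

theorem e1_ct (L : ℕ) : (e1 L (L - 1))ᴴ = (e1 L (L - 1))ᵀ := by
  ext i k
  rw [Matrix.conjTranspose_apply, Matrix.transpose_apply, e1_ap]
  split_ifs <;> simp

theorem lDD_diag (L : ℕ) (i : Fin (L - 1)) : lDD L i i = 2 := by
  unfold lDD
  have key : ∀ f : Fin L → ℝ, ∑ j : Fin L, ((if (i : ℕ) = j then (1 : ℝ) else 0) -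
      (if (i : ℕ) + 1 = j then 1 else 0)) * f j = f ⟨i, by omega⟩ - f ⟨i + 1, by omega⟩ := by
    intro f
    simp_rw [sub_mul]
    rw [Finset.sum_sub_distrib]
    congr 1
    · rw [Finset.sum_eq_single (⟨i, by omega⟩ : Fin L)]
      · simp
      · intro j _ hj
        have : ¬ ((i : ℕ) = j) := fun h => hj (Fin.ext h.symm)
        simp [this]
      · intro h
        exact absurd (Finset.mem_univ _) h
    · rw [Finset.sum_eq_single (⟨i + 1, by omega⟩ : Fin L)]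
      · simp
      · intro j _ hj
        have : ¬ ((i : ℕ) + 1 = j) := fun h => hj (Fin.ext h.symm)
        simp [this]
      · intro h
        exact absurd (Finset.mem_univ _) h
  rw [Matrix.mul_apply]
  have e : ∀ j, (dm L (L - 1))ᵀ i j * dm L (L - 1) j i =
      ((if (i : ℕ) = j then (1 : ℝ) else 0) - (if (i : ℕ) + 1 = j then 1 else 0)) *
        dm L (L - 1) j i := fun j => rfl
  rw [Finset.sum_congr rfl (fun j _ => e j), key]
  unfold dm
  simp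
  norm_num

theorem diag2 (L : ℕ) : (Matrix.diagonal fun i => ((lDD L i i : ℝ) : ℂ)) =
    (2 : ℂ) • (1 : Matrix (Fin (L - 1)) (Fin (L - 1)) ℂ) := by
  ext i k
  by_cases h : i = k
  · subst h
    simp [lDD_diag]
  · simp [h]

/-! ### The three difference operators -/

/-- plaquettes 13 -/
def A1 (L : ℕ) : Matrix (Fin L × Fin (L - 1) × Fin L × Fin L) (I3 L) ℂ :=
  k4 (cx (dm L (L - 1))) 1 1 1
/-- plaquettes 23 -/
def A2 (L : ℕ) (θ : ℝ) : Matrix (Fin (L - 1) × Fin L × Fin L × Fin L) (I3 L) ℂ :=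
  k4 (phs θ (1 / 2) 1) (e0 L (L - 1)) 1 1 - k4 (phs θ (-(1 / 2)) 1) (e1 L (L - 1)) 1 1
/-- plaquettes 34 -/
def A4 (L : ℕ) : Matrix (Fin (L - 1) × Fin (L - 1) × Fin L × Fin L) (I3 L) ℂ :=
  k4 1 1 1 (cx (dm L L))

theorem a11 (L : ℕ) : (A1 L)ᴴ * A1 L = k4 (cx (lDD L)) 1 1 1 := by
  unfold A1
  rw [k4_ct, k4_mul, cx_ct, ← cx_mul]
  simp only [Matrix.conjTranspose_one, Matrix.one_mul]
  rfl

theorem a44 (L : ℕ) : (A4 L)ᴴ * A4 L = k4 1 1 1 (cx (lDN L)) := by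
  unfold A4
  rw [k4_ct, k4_mul, cx_ct, ← cx_mul]
  simp only [Matrix.conjTranspose_one, Matrix.one_mul]
  rfl

theorem a33 (L : ℕ) : g3 L * (g3 L)ᴴ = k4 1 1 (cx (lNN L)) 1 := by
  unfold g3
  rw [k4_ct, k4_mul, cx_ct, ← cx_mul]
  simp only [Matrix.conjTranspose_one, Matrix.one_mul]
  rfl

theorem a22 (L : ℕ) (θ : ℝ) : (A2 L θ)ᴴ * A2 L θ =
    k4 1 (Matrix.diagonal fun i => ((lDD L i i : ℝ) : ℂ)) 1 1
    - k4 (phs θ 1 1) (cx (tm (L - 1))) 1 1 - k4 (phs θ (-1) 1) (cx (tm (L - 1))ᵀ) 1 1 := by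
  unfold A2
  rw [Matrix.conjTranspose_sub, k4_ct, k4_ct, e0_ct, e1_ct, phs_ct, phs_ct, Matrix.sub_mul,
    Matrix.mul_sub, Matrix.mul_sub, k4_mul, k4_mul, k4_mul, k4_mul, phs_mul, phs_mul, phs_mul,
    phs_mul, e00, e01, e10, e11, diag2, k4_smul2]
  simp only [Matrix.conjTranspose_one, Matrix.one_mul, neg_neg]
  have z1 : (-(1 / 2) + 1 / 2 : ℝ) = 0 := by ring
  have z2 : (-(1 / 2) + -(1 / 2) : ℝ) = -1 := by ring
  have z3 : (1 / 2 + 1 / 2 : ℝ) = 1 := by ring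
  have z4 : (1 / 2 + -(1 / 2) : ℝ) = 0 := by ring
  rw [z1, z2, z3, z4, phs_zero, two_smul]
  abel

theorem mat33 (L : ℕ) (θ : ℝ) : m33 L θ - g3 L * (g3 L)ᴴ =
    (A1 L)ᴴ * A1 L + (A2 L θ)ᴴ * A2 L θ + (A4 L)ᴴ * A4 L := by
  rw [a11, a22, a33, a44]
  unfold m33 covL
  abel

theorem hf_add {m n : Type} [Fintype m] [Fintype n] (a : m → ℂ) (M N : Matrix m n ℂ) (b : n → ℂ) :
    hf a (M + N) b = hf a M b + hf a N b := by
  unfold hf
  rw [← Complex.add_re, ← Finset.sum_add_distrib]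
  congr 1
  refine Finset.sum_congr rfl fun i _ => ?_
  rw [← Finset.sum_add_distrib]
  refine Finset.sum_congr rfl fun j _ => ?_
  rw [Matrix.add_apply]
  ring

theorem hf_sq {m n : Type} [Fintype m] [Fintype n] (A : Matrix m n ℂ) (b : n → ℂ) :
    hf b (Aᴴ * A) b = ∑ i, ‖∑ j, A i j * b j‖ ^ 2 := by
  have h1 : (∑ i, ∑ j, star (b i) * (Aᴴ * A) i j * b j) = star b ⬝ᵥ ((Aᴴ * A) *ᵥ b) := by
    simp only [dotProduct, Matrix.mulVec, Finset.mul_sum, Pi.star_apply, mul_assoc]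
  have h2 : star b ⬝ᵥ ((Aᴴ * A) *ᵥ b) = star (A *ᵥ b) ⬝ᵥ (A *ᵥ b) := by
    rw [← Matrix.mulVec_mulVec, Matrix.dotProduct_mulVec, Matrix.star_mulVec]
  unfold hf
  rw [h1, h2]
  unfold dotProduct
  rw [Complex.re_sum]
  refine Finset.sum_congr rfl fun i _ => ?_
  have h3 : (A *ᵥ b) i = ∑ j, A i j * b j := rfl
  rw [Pi.star_apply, h3, Complex.star_def, ← Complex.normSq_eq_conj_mul_self,
    Complex.ofReal_re, Complex.normSq_eq_norm_sq]

/-! ### positions -/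

theorem sm0 {m : ℕ} (j : ℕ) (F : ℕ → ℂ) :
    ∑ i : Fin m, (if (i : ℕ) = j then (1 : ℂ) else 0) * F (i + 1) = if j < m then F (j + 1) else 0 := by
  rw [Fin.sum_univ_eq_sum_range (fun i => (if i = j then (1 : ℂ) else 0) * F (i + 1)) m]
  simp only [ite_mul, one_mul, zero_mul, Finset.sum_ite_eq', Finset.mem_range]

theorem sm1 {m : ℕ} (j : ℕ) (F : ℕ → ℂ) :
    ∑ i : Fin m, (if (i : ℕ) + 1 = j then (1 : ℂ) else 0) * F (i + 1) =
      if 1 ≤ j ∧ j ≤ m then F j else 0 := by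
  rcases Nat.eq_zero_or_pos j with rfl | hj
  · simp
  · obtain ⟨k, rfl⟩ : ∃ k, j = k + 1 := ⟨j - 1, by omega⟩
    rw [Fin.sum_univ_eq_sum_range (fun i => (if i + 1 = k + 1 then (1 : ℂ) else 0) * F (i + 1)) m]
    simp only [Nat.add_right_cancel_iff, ite_mul, one_mul, zero_mul, Finset.sum_ite_eq',
      Finset.mem_range]
    by_cases h : k < m
    · rw [if_pos h, if_pos (by omega)]
    · rw [if_neg h, if_neg (by omega)]

theorem sd1 {L : ℕ} (j : Fin L) (F : ℕ → ℂ) (h0 : F 0 = 0) (hL : F L = 0) :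
    ∑ i : Fin (L - 1), cx (dm L (L - 1)) j i * F (i + 1) = F (j + 1) - F j := by
  have e : ∀ i : Fin (L - 1), cx (dm L (L - 1)) j i * F (i + 1) =
      (if (i : ℕ) = j then (1 : ℂ) else 0) * F (i + 1) -
      (if (i : ℕ) + 1 = j then (1 : ℂ) else 0) * F (i + 1) := by
    intro i
    rw [cx_ap, dm_ap, ← sub_mul]
    congr 1
    split_ifs <;> simp
  rw [Finset.sum_congr rfl fun i _ => e i, Finset.sum_sub_distrib, sm0, sm1]
  have hj := j.2
  congr 1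
  · by_cases h : (j : ℕ) < L - 1
    · rw [if_pos h]
    · rw [if_neg h]
      have : (j : ℕ) + 1 = L := by omega
      rw [this, hL]
  · by_cases h : 1 ≤ (j : ℕ)
    · rw [if_pos (by omega)]
    · rw [if_neg (by omega)]
      have : (j : ℕ) = 0 := by omega
      rw [this, h0]

theorem sd4 {L : ℕ} (j : Fin L) (F : ℕ → ℂ) (h0 : F 0 = 0) :
    ∑ i : Fin L, cx (dm L L) j i * F (i + 1) = F (j + 1) - F j := by
  have e : ∀ i : Fin L, cx (dm L L) j i * F (i + 1) =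
      (if (i : ℕ) = j then (1 : ℂ) else 0) * F (i + 1) -
      (if (i : ℕ) + 1 = j then (1 : ℂ) else 0) * F (i + 1) := by
    intro i
    rw [cx_ap, dm_ap, ← sub_mul]
    congr 1
    split_ifs <;> simp
  rw [Finset.sum_congr rfl fun i _ => e i, Finset.sum_sub_distrib, sm0, sm1]
  have hj := j.2
  congr 1
  · rw [if_pos hj]
  · by_cases h : 1 ≤ (j : ℕ)
    · rw [if_pos (by omega)]
    · rw [if_neg (by omega)]
      have : (j : ℕ) = 0 := by omega
      rw [this, h0]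

theorem se0 {L : ℕ} (j : Fin L) (F : ℕ → ℂ) (hL : F L = 0) :
    ∑ i : Fin (L - 1), e0 L (L - 1) j i * F (i + 1) = F (j + 1) := by
  have e : ∀ i : Fin (L - 1), e0 L (L - 1) j i * F (i + 1) =
      (if (i : ℕ) = j then (1 : ℂ) else 0) * F (i + 1) := fun i => rfl
  rw [Finset.sum_congr rfl fun i _ => e i, sm0]
  have hj := j.2
  by_cases h : (j : ℕ) < L - 1
  · rw [if_pos h]
  · rw [if_neg h]
    have : (j : ℕ) + 1 = L := by omega
    rw [this, hL]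

theorem se1 {L : ℕ} (j : Fin L) (F : ℕ → ℂ) (h0 : F 0 = 0) :
    ∑ i : Fin (L - 1), e1 L (L - 1) j i * F (i + 1) = F j := by
  have e : ∀ i : Fin (L - 1), e1 L (L - 1) j i * F (i + 1) =
      (if (i : ℕ) + 1 = j then (1 : ℂ) else 0) * F (i + 1) := fun i => rfl
  rw [Finset.sum_congr rfl fun i _ => e i, sm1]
  have hj := j.2
  by_cases h : 1 ≤ (j : ℕ)
  · rw [if_pos (by omega)]
  · rw [if_neg (by omega)]
    have : (j : ℕ) = 0 := by omega
    rw [this, h0]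

/-- the field in positions -/
theorem ex_in {L : ℕ} (b : I3 L → ℂ) (i j : Fin (L - 1)) (k h : Fin L) :
    ex3 L b 0 (i + 1) (j + 1) k (h + 1) = b (i, j, k, h) := by
  unfold ex3
  have hi := i.2
  have hj := j.2
  have hk := k.2
  have hh := h.2
  rw [dif_pos (by omega)]
  rfl

theorem ex_x0 {L : ℕ} (b : I3 L → ℂ) (y z h : ℕ) : ex3 L b 0 0 y z h = 0 := by
  unfold ex3
  rw [dif_neg (by omega)]

theorem ex_xL {L : ℕ} (b : I3 L → ℂ) (y z h : ℕ) : ex3 L b 0 L y z h = 0 := by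
  unfold ex3
  rw [dif_neg (by omega)]

theorem ex_y0 {L : ℕ} (b : I3 L → ℂ) (x z h : ℕ) : ex3 L b 0 x 0 z h = 0 := by
  unfold ex3
  rw [dif_neg (by omega)]

theorem ex_yL {L : ℕ} (b : I3 L → ℂ) (x z h : ℕ) : ex3 L b 0 x L z h = 0 := by
  unfold ex3
  rw [dif_neg (by omega)]

theorem ex_h0 {L : ℕ} (b : I3 L → ℂ) (x y z : ℕ) : ex3 L b 0 x y z 0 = 0 := by
  unfold ex3
  rw [dif_neg (by omega)]

/-- collapse of the sum over the product -/
theorem ent {α β γ δ : Type} [Fintype α] [Fintype β] [Fintype γ] [Fintype δ] [DecidableEq β]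
    [DecidableEq γ] [DecidableEq δ] {α' : Type} (P : Matrix α' α ℂ) (b : α × β × γ × δ → ℂ)
    (x : α') (y : β) (z : γ) (h : δ) :
    ∑ j : α × β × γ × δ, k4 P (1 : Matrix β β ℂ) (1 : Matrix γ γ ℂ) (1 : Matrix δ δ ℂ) (x, y, z, h) j * b j =
      ∑ i, P x i * b (i, y, z, h) := by
  simp only [Fintype.sum_prod_type, k4, Matrix.one_apply, mul_ite, mul_one, mul_zero, ite_mul,
    zero_mul, Finset.sum_ite_eq, Finset.mem_univ, if_true, Finset.sum_const_zero]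

theorem ent4 {α β γ δ : Type} [Fintype α] [Fintype β] [Fintype γ] [Fintype δ] [DecidableEq β]
    [DecidableEq γ] [DecidableEq α] {δ' : Type} (P : Matrix δ' δ ℂ) (b : α × β × γ × δ → ℂ)
    (x : α) (y : β) (z : γ) (h : δ') :
    ∑ j : α × β × γ × δ, k4 (1 : Matrix α α ℂ) (1 : Matrix β β ℂ) (1 : Matrix γ γ ℂ) P (x, y, z, h) j * b j =
      ∑ i, P h i * b (x, y, z, i) := by
  simp only [Fintype.sum_prod_type, k4, Matrix.one_apply, mul_ite, mul_one, mul_zero, ite_mul,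
    zero_mul, one_mul, Finset.sum_ite_eq, Finset.mem_univ, if_true, Finset.sum_const_zero,
    Finset.sum_ite_irrel]

theorem ent2 {α β γ δ : Type} [Fintype α] [Fintype β] [Fintype γ] [Fintype δ] [DecidableEq α]
    [DecidableEq γ] [DecidableEq δ] {β' : Type} (D : α → ℂ) (P : Matrix β' β ℂ)
    (b : α × β × γ × δ → ℂ) (x : α) (y : β') (z : γ) (h : δ) :
    ∑ j : α × β × γ × δ, k4 (Matrix.diagonal D) P (1 : Matrix γ γ ℂ) (1 : Matrix δ δ ℂ) (x, y, z, h) j * b j =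
      D x * ∑ i, P y i * b (x, i, z, h) := by
  simp only [Fintype.sum_prod_type, k4, Matrix.one_apply, Matrix.diagonal_apply, mul_ite, mul_one, mul_zero, ite_mul,
    zero_mul, one_mul, Finset.sum_ite_eq, Finset.mem_univ, if_true, Finset.sum_const_zero,
    Finset.sum_ite_irrel, Finset.mul_sum, mul_assoc]

theorem ap1 {L : ℕ} (b : I3 L → ℂ) (x : Fin L) (y : Fin (L - 1)) (z h : Fin L) :
    ∑ j, A1 L (x, y, z, h) j * b j =
      ex3 L b 0 (x + 1) (y + 1) z (h + 1) - ex3 L b 0 x (y + 1) z (h + 1) := by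
  unfold A1
  rw [ent]
  have e : ∀ i : Fin (L - 1), cx (dm L (L - 1)) x i * b (i, y, z, h) =
      cx (dm L (L - 1)) x i * (fun p => ex3 L b 0 p (y + 1) z (h + 1)) (i + 1) := by
    intro i
    show _ = _ * ex3 L b 0 (i + 1) (y + 1) z (h + 1)
    rw [ex_in]
  rw [Finset.sum_congr rfl fun i _ => e i, sd1 x (fun p => ex3 L b 0 p (y + 1) z (h + 1))
    (ex_x0 b _ _ _) (ex_xL b _ _ _)]

theorem ap4 {L : ℕ} (b : I3 L → ℂ) (x y : Fin (L - 1)) (z h : Fin L) :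
    ∑ j, A4 L (x, y, z, h) j * b j =
      ex3 L b 0 (x + 1) (y + 1) z (h + 1) - ex3 L b 0 (x + 1) (y + 1) z h := by
  unfold A4
  rw [ent4]
  have e : ∀ i : Fin L, cx (dm L L) h i * b (x, y, z, i) =
      cx (dm L L) h i * (fun p => ex3 L b 0 (x + 1) (y + 1) z p) (i + 1) := by
    intro i
    show _ = _ * ex3 L b 0 (x + 1) (y + 1) z (i + 1)
    rw [ex_in]
  rw [Finset.sum_congr rfl fun i _ => e i, sd4 h (fun p => ex3 L b 0 (x + 1) (y + 1) z p)
    (ex_h0 b _ _ _)]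

theorem ph2 {L : ℕ} (θ s : ℝ) (x : Fin (L - 1)) :
    Complex.exp (Complex.I * (θ * s * (((x : ℕ) : ℝ) + 1) : ℝ)) = ee θ (s * ((x : ℕ) + 1 : ℕ)) := by
  unfold ee
  congr 3
  push_cast
  ring

theorem ap2 {L : ℕ} (θ : ℝ) (b : I3 L → ℂ) (x : Fin (L - 1)) (y z h : Fin L) :
    ∑ j, A2 L θ (x, y, z, h) j * b j =
      ee θ (((x : ℕ) + 1 : ℕ) / 2) * ex3 L b 0 (x + 1) (y + 1) z (h + 1) -
      ee θ (-(((x : ℕ) + 1 : ℕ) / 2)) * ex3 L b 0 (x + 1) y z (h + 1) := by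
  unfold A2 phs
  simp only [Matrix.sub_apply, sub_mul]
  rw [Finset.sum_sub_distrib, ent2, ent2]
  have e : ∀ i : Fin (L - 1), b (x, i, z, h) =
      (fun p => ex3 L b 0 (x + 1) p z (h + 1)) (i + 1) := by
    intro i
    show _ = ex3 L b 0 (x + 1) (i + 1) z (h + 1)
    rw [ex_in]
  have e' : ∀ P : Matrix (Fin L) (Fin (L - 1)) ℂ, ∑ i, P y i * b (x, i, z, h) =
      ∑ i : Fin (L - 1), P y i * (fun p => ex3 L b 0 (x + 1) p z (h + 1)) (i + 1) := by
    intro P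
    refine Finset.sum_congr rfl fun i _ => ?_
    rw [e i]
  rw [e', e', se0 y (fun p => ex3 L b 0 (x + 1) p z (h + 1)) (ex_yL b _ _ _),
    se1 y (fun p => ex3 L b 0 (x + 1) p z (h + 1)) (ex_y0 b _ _ _), ph2, ph2]
  have z1 : (1 / 2 : ℝ) * (((x : ℕ) + 1 : ℕ) : ℝ) = (((x : ℕ) + 1 : ℕ) : ℝ) / 2 := by ring
  have z2 : (-(1 / 2) : ℝ) * (((x : ℕ) + 1 : ℕ) : ℝ) = -((((x : ℕ) + 1 : ℕ) : ℝ) / 2) := by ring
  rw [z1, z2]

/-! ### sums over positions -/

theorem ic (L : ℕ) (f : ℕ → ℝ) : ∑ y ∈ Ico 1 L, f y = ∑ y : Fin (L - 1), f (y + 1) := by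
  rw [Finset.sum_Ico_eq_sum_range, Finset.sum_range]
  refine Finset.sum_congr rfl fun i _ => ?_
  rw [add_comm]

theorem icc (L : ℕ) (f : ℕ → ℝ) : ∑ h ∈ Icc 1 L, f h = ∑ h : Fin L, f (h + 1) := by
  have : Icc 1 L = Ico 1 (L + 1) := by
    ext k
    simp only [Finset.mem_Icc, Finset.mem_Ico]
    omega
  rw [this, Finset.sum_Ico_eq_sum_range, Nat.add_sub_cancel, Finset.sum_range]
  refine Finset.sum_congr rfl fun i _ => ?_
  rw [add_comm]

theorem s13_eq (L : ℕ) (F : ℕ → ℕ → ℕ → ℕ → ℝ) : s13 L F =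
    ∑ p : Fin L × Fin (L - 1) × Fin L × Fin L, F p.1 (p.2.1 + 1) p.2.2.1 (p.2.2.2 + 1) := by
  unfold s13
  simp only [Fintype.sum_prod_type, ic, icc, Finset.sum_range]

theorem s23_eq (L : ℕ) (F : ℕ → ℕ → ℕ → ℕ → ℝ) : s23 L F =
    ∑ p : Fin (L - 1) × Fin L × Fin L × Fin L, F (p.1 + 1) p.2.1 p.2.2.1 (p.2.2.2 + 1) := by
  unfold s23
  simp only [Fintype.sum_prod_type, ic, icc, Finset.sum_range]

theorem s34_eq (L : ℕ) (F : ℕ → ℕ → ℕ → ℕ → ℝ) : s34 L F =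
    ∑ p : Fin (L - 1) × Fin (L - 1) × Fin L × Fin L, F (p.1 + 1) (p.2.1 + 1) p.2.2.1 p.2.2.2 := by
  unfold s34
  simp only [Fintype.sum_prod_type, ic, icc, Finset.sum_range]

/-- **Task AF-Q33.** -/
theorem tq33 : S_Q33 := by
  intro L _ θ b
  rw [s13_eq, s23_eq, s34_eq, mat33, hf_add, hf_add, hf_sq, hf_sq, hf_sq, mul_add, mul_add,
    Finset.mul_sum, Finset.mul_sum, Finset.mul_sum]
  congr 1
  · congr 1
    · refine Finset.sum_congr rfl fun p _ => ?_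
      obtain ⟨x, y, z, h⟩ := p
      rw [ap1]
    · refine Finset.sum_congr rfl fun p _ => ?_
      obtain ⟨x, y, z, h⟩ := p
      rw [ap2]
  · refine Finset.sum_congr rfl fun p _ => ?_
    obtain ⟨x, y, z, h⟩ := p
    rw [ap4]

end

end Pool.Agent.H947.AF
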